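import Pool.Agent.H73.GWQ.Stmts

/-!
# Row B6Q: the code built from two elements
-/

set_option autoImplicit false

open Classical

namespace GWQ

namespace B6QAux

section metric

variable {G V : Type*} [Group G] (D : QM G V)

theorem dl (g h : G) : D.d g (g * h) = D.nm h := by
  have h1 := D.inv g 1 h
  rw [mul_one] at h1
  exact h1

theorem nm_one : D.nm 1 = 0 := D.self 1

theorem nm_inv (g : G) : D.nm g⁻¹ = D.nm g := by
  have h1 := D.inv g 1 g⁻¹
  rw [mul_one, mul_inv_cancel] at h1
  show D.d 1 g⁻¹ = D.d 1 g
  rw [← h1, D.comm]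

theorem nm_mul (g h : G) : D.nm (g * h) ≤ D.nm g + D.nm h := by
  have h1 := D.tri 1 g (g * h)
  rw [dl] at h1
  exact h1

end metric

section words

variable {G : Type*} [Group G]

theorem prw_append (a b : G) (l l' : List Bool) :
    GWT.prw a b (l ++ l') = GWT.prw a b l * GWT.prw a b l' := by
  simp [GWT.prw]

theorem prw_inv (a b : G) (l : List Bool) :
    (GWT.prw a b l)⁻¹ = GWT.prw a⁻¹ b⁻¹ l.reverse := by
  unfold GWT.prw
  rw [List.prod_inv_reverse, List.map_map, List.map_reverse]
  congr 2
  apply List.map_congr_left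
  intro x _
  cases x <;> simp

/-- the word of a list of letters -/
def wl {S : Type*} (ua ub : List S) (l : List Bool) : List S :=
  (l.map (fun x => if x then ub else ua)).flatten

theorem wl_cons {S : Type*} (ua ub : List S) (x : Bool) (l : List Bool) :
    wl ua ub (x :: l) = (if x then ub else ua) ++ wl ua ub l := by
  simp [wl]

theorem wl_append {S : Type*} (ua ub : List S) (l l' : List Bool) :
    wl ua ub (l ++ l') = wl ua ub l ++ wl ua ub l' := by
  simp [wl]

theorem wl_ev {S : Type*} (e : S → G) (ua ub : List S) (l : List Bool) :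
    GWP.ev e (wl ua ub l) = GWT.prw (GWP.ev e ua) (GWP.ev e ub) l := by
  induction l with
  | nil => simp [wl, GWT.prw, GWP.ev]
  | cons x l ih =>
    rw [wl_cons, GWP.ev_append, ih]
    cases x <;> simp [GWT.prw]

/-- the blocks -/
def bl (t : List Bool) : List Bool := t.flatMap (fun x => [x, !x])

theorem bl_cons (x : Bool) (t : List Bool) : bl (x :: t) = [x] ++ ([!x] ++ bl t) := by
  simp [bl]

theorem bl_len (t : List Bool) : (bl t).length = 2 * t.length := by
  induction t with
  | nil => simp [bl]
  | cons x t ih =>
    rw [bl_cons]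
    simp only [List.length_append, List.length_cons, List.length_nil, ih]
    omega

theorem bl_inj (t t' : List Bool) (h : bl t = bl t') : t = t' := by
  induction t generalizing t' with
  | nil =>
    cases t' with
    | nil => rfl
    | cons x t' =>
      rw [bl_cons] at h
      simp [bl] at h
  | cons x t ih =>
    cases t' with
    | nil =>
      rw [bl_cons] at h
      simp [bl] at h
    | cons y t' =>
      rw [bl_cons, bl_cons] at h
      simp only [List.cons_append, List.nil_append, List.cons.injEq] at h
      rw [h.1, ih t' h.2.2]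

theorem wl_bl_len {S : Type*} (ua ub : List S) (t : List Bool) :
    (wl ua ub (bl t)).length = t.length * (ua.length + ub.length) := by
  induction t with
  | nil => simp [bl, wl]
  | cons x t ih =>
    rw [bl_cons]
    simp only [List.cons_append, List.nil_append]
    rw [wl_cons, wl_cons, List.length_append, List.length_append, ih, List.length_cons]
    cases x <;> simp <;> ring

end words

section estimates

variable {G V : Type*} [Group G] (D : QM G V)

theorem prw_one (a b : G) (x : Bool) : GWT.prw a b [x] = if x then b else a := by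
  simp [GWT.prw]

theorem bl_up (a b : G) (t : List Bool) :
    D.nm (GWT.prw a b (bl t)) ≤ t.length * (D.nm a + D.nm b) := by
  induction t with
  | nil => simp [bl, GWT.prw, nm_one]
  | cons x t ih =>
    rw [bl_cons, prw_append, prw_append, prw_one, prw_one, List.length_cons]
    have h1 := nm_mul D (if x then b else a) ((if (!x) then b else a) * GWT.prw a b (bl t))
    have h2 := nm_mul D (if (!x) then b else a) (GWT.prw a b (bl t))
    have h3 : (t.length + 1) * (D.nm a + D.nm b) =
        t.length * (D.nm a + D.nm b) + (D.nm a + D.nm b) := by ring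
    rw [h3]
    cases x
    · simp only [Bool.not_false, if_true, Bool.false_eq_true, if_false] at h1 h2 ⊢
      omega
    · simp only [Bool.not_true, if_true, Bool.false_eq_true, if_false] at h1 h2 ⊢
      omega

theorem bl_lo (h3 : B3QStmt D) (a b : G) (k : ℕ) (hP : Pair D a b k) (t : List Bool) :
    t.length * (D.nm a + D.nm b) ≤ D.nm (GWT.prw a b (bl t)) + 6 * k * t.length := by
  induction t with
  | nil => simp
  | cons x t ih =>
    rw [bl_cons, List.length_cons]
    have h1 := h3 a b k hP [x] ([!x] ++ bl t)
    have h2 := h3 a b k hP [!x] (bl t)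
    rw [prw_one] at h1 h2
    have h4 : (t.length + 1) * (D.nm a + D.nm b) =
        t.length * (D.nm a + D.nm b) + (D.nm a + D.nm b) := by ring
    have h5 : 6 * k * (t.length + 1) = 6 * k * t.length + 6 * k := by ring
    rw [h4, h5]
    cases x
    · simp only [Bool.not_false, if_true, Bool.false_eq_true, if_false] at h1 h2 ⊢
      omega
    · simp only [Bool.not_true, if_true, Bool.false_eq_true, if_false] at h1 h2 ⊢
      omega

theorem five (h3 : B3QStmt D) (a b : G) (k : ℕ) (hP : Pair D a b k) (l : List Bool) :
    5 * D.nm (GWT.prw a b l) ≤ D.nm (GWT.prw a b l ^ 5) + 12 * k := by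
  have e : GWT.prw a b l ^ 5 = GWT.prw a b (l ++ (l ++ (l ++ (l ++ l)))) := by
    rw [prw_append, prw_append, prw_append, prw_append]
    simp only [pow_succ, pow_zero, one_mul, mul_assoc]
  rw [e]
  have g1 := h3 a b k hP l l
  have g2 := h3 a b k hP l (l ++ l)
  have g3 := h3 a b k hP l (l ++ (l ++ l))
  have g4 := h3 a b k hP l (l ++ (l ++ (l ++ l)))
  omega

theorem big (n : ℕ) (hn : 9 ≤ n) : 2 * ((2 * n + 1) * n) + 1 ≤ 2 ^ n := by
  induction n, hn using Nat.le_induction with
  | base => norm_num
  | succ n hn ih =>
    rw [pow_succ]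
    nlinarith

end estimates

end B6QAux

open B6QAux

/-- **B6Q**. -/
theorem B6Q (S : Type*) {G V : Type*} [Group G] (D : QM G V) (h1 : B1QStmt D) (h3 : B3QStmt D)
    (h5 : B5QStmt D) (hn : NEAStmt D) (ht : TRNStmt D) : B6QStmt D S := by
  intro a b k hP hfin e ua ub hua hub
  obtain ⟨n, hnn⟩ : ∃ n : ℕ, n = D.nm a + D.nm b + 9 := ⟨_, rfl⟩
  obtain ⟨m, hm⟩ : ∃ m : ℕ, m = 2 * n := ⟨_, rfl⟩
  have hP' : Pair D a⁻¹ b⁻¹ k := (h1 a b k hP).1
  have hk := hP.k_pos
  have hδ := hP.hδ
  have hla : 1000 * k ≤ D.nm a := hP.long a (by simp)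
  have hlb : 1000 * k ≤ D.nm b := hP.long b (by simp)
  -- the words
  obtain ⟨ls, hls⟩ : ∃ ls : (Fin m → Bool) → List Bool,
      ls = fun s => false :: bl (List.ofFn s) := ⟨_, rfl⟩
  have hls0 : ∀ s, ls s = [false] ++ bl (List.ofFn s) := fun s => by rw [hls]; rfl
  have hlslen : ∀ s, (ls s).length = 2 * m + 1 := fun s => by
    rw [hls0, List.length_append, bl_len, List.length_ofFn]
    simp only [List.length_cons, List.length_nil]
    omega
  have hlsinj : ∀ s t, s ≠ t → ls s ≠ ls t := fun s t hst h => by
    rw [hls0, hls0] at h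
    have h6 := List.append_cancel_left h
    exact hst (List.ofFn_injective (bl_inj _ _ h6))
  have hup : ∀ s, D.nm (GWT.prw a b (ls s)) ≤ D.nm a + m * (D.nm a + D.nm b) := fun s => by
    rw [hls0, prw_append, prw_one]
    have g1 := nm_mul D (if false = true then b else a) (GWT.prw a b (bl (List.ofFn s)))
    have g2 := bl_up D a b (List.ofFn s)
    rw [List.length_ofFn] at g2
    simp only [Bool.false_eq_true, if_false] at g1 ⊢
    omega
  have hrest : ∀ s, m * (D.nm a + D.nm b) ≤
      D.nm (GWT.prw a b (bl (List.ofFn s))) + 6 * k * m := fun s => by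
    have g2 := bl_lo D h3 a b k hP (List.ofFn s)
    rw [List.length_ofFn] at g2
    exact g2
  have hfst : ∀ s, D.nm a + D.nm (GWT.prw a b (bl (List.ofFn s))) ≤
      D.nm (GWT.prw a b (ls s)) + 3 * k := fun s => by
    have g1 := h3 a b k hP [false] (bl (List.ofFn s))
    rw [prw_one, ← hls0] at g1
    simpa using g1
  have hAB : 2000 * k * m ≤ m * (D.nm a + D.nm b) := by
    have g1 : 2000 * k ≤ D.nm a + D.nm b := by omega
    calc 2000 * k * m = m * (2000 * k) := by ring
      _ ≤ m * (D.nm a + D.nm b) := Nat.mul_le_mul_left _ g1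
  have hm18 : 18 ≤ m := by omega
  have hkm : 18 * k ≤ k * m := by
    calc 18 * k = k * 18 := by ring
      _ ≤ k * m := Nat.mul_le_mul_left _ hm18
  have e1 : 2000 * k * m = 2000 * (k * m) := by ring
  have e2 : 6 * k * m = 6 * (k * m) := by ring
  have e3 : 6 * k * m + 3 * k = 6 * (k * m) + 3 * k := by ring
  obtain ⟨SS, hSS⟩ : ∃ SS : ℕ, SS = D.nm a + m * (D.nm a + D.nm b) := ⟨_, rfl⟩
  have hlo : ∀ s, SS ≤ D.nm (GWT.prw a b (ls s)) + (6 * (k * m) + 3 * k) := fun s => by
    have g1 := hrest s
    have g2 := hfst s
    omega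
  have hSbig : 2000 * (k * m) + 1000 * k ≤ SS := by omega
  have hua1 : 1 ≤ ua.length := by
    rcases Nat.eq_zero_or_pos ua.length with h | h
    · exfalso
      have h6 : ua = [] := List.length_eq_zero_iff.mp h
      rw [h6] at hua
      have h7 : a = 1 := by rw [← hua]; rfl
      rw [h7, nm_one] at hla
      omega
    · exact h
  let C : QCode (Fin m → Bool) G V :=
    { toQM := D
      c := fun s => GWT.prw a b (ls s)
      Λ := SS - (6 * (k * m) + 3 * k)
      Λ' := SS
      K := 12 * k
      M := 2 ^ n
      K_pos := by omega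
      hδ := by omega
      M_big := by
        calc 8 = 2 ^ 3 := by norm_num
          _ ≤ 2 ^ n := Nat.pow_le_pow_right (by norm_num) (by omega)
      card := by
        rw [Fintype.card_fun, Fintype.card_bool, Fintype.card_fin, ← pow_mul, hm, mul_comm]
      lo := by
        intro s
        have g1 := hlo s
        show SS - (6 * (k * m) + 3 * k) ≤ D.nm (GWT.prw a b (ls s))
        omega
      hi := by
        intro s
        rw [hSS]
        exact hup s
      p5 := by
        intro s
        exact five D h3 a b k hP (ls s)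
      sep := by
        intro s t hst
        have g1 := h5 a b k hP (ls s) (ls t) (by rw [hlslen, hlslen]) (hlsinj s t hst)
        show D.nm (GWT.prw a b (ls s)) + 30 * (12 * k) <
          D.d (GWT.prw a b (ls s)) (GWT.prw a b (ls t)) + D.nm (GWT.prw a b (ls t))
        omega
      sep' := by
        intro s t hst
        have g1 := h5 a⁻¹ b⁻¹ k hP' (ls s).reverse (ls t).reverse
          (by rw [List.length_reverse, List.length_reverse, hlslen, hlslen])
          (fun h => hlsinj s t hst (List.reverse_injective h))
        rw [← prw_inv, ← prw_inv, nm_inv, nm_inv] at g1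
        show D.nm (GWT.prw a b (ls s)) + 30 * (12 * k) <
          D.d (GWT.prw a b (ls s))⁻¹ (GWT.prw a b (ls t))⁻¹ + D.nm (GWT.prw a b (ls t))
        omega
      ratio := by
        show SS + 10 * (12 * k) ≤ 2 * (SS - (6 * (k * m) + 3 * k))
        omega
      big := by
        show 100 * (12 * k) ≤ SS - (6 * (k * m) + 3 * k)
        omega
      offs := by
        show 2 * SS + 1 ≤ 2 ^ n
        have g1 := big n (by omega)
        have g2 : SS ≤ (2 * n + 1) * n := by
          rw [hSS, hm]
          have g3 : D.nm a ≤ n := by omega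
          have g4 : D.nm a + D.nm b ≤ n := by omega
          calc D.nm a + 2 * n * (D.nm a + D.nm b) ≤ n + 2 * n * n :=
                add_le_add g3 (Nat.mul_le_mul_left _ g4)
            _ = (2 * n + 1) * n := by ring
        omega
      rig := by
        intro s
        refine hfin.subset ?_
        rintro g ⟨hg1, hg2⟩
        obtain ⟨z, hz⟩ : ∃ z : G, z = GWT.prw a b (ls s) := ⟨_, rfl⟩
        obtain ⟨r, hr⟩ : ∃ r : G, r = GWT.prw a b (bl (List.ofFn s)) := ⟨_, rfl⟩
        have hg1' : D.nm g ≤ 30 * (12 * k) := hg1
        have hg2' : D.d z (g * z) ≤ 30 * (12 * k) := by rw [hz]; exact hg2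
        have hzr : z = a * r := by
          rw [hz, hr, hls0, prw_append, prw_one]
          simp
        have hr1 := hrest s
        rw [← hr] at hr1
        have hf := hfst s
        rw [← hz, ← hr] at hf
        have hd : D.d a z = D.nm r := by rw [hzr, dl]
        have hT := ht g z a z (360 * k) (3 * k) (by omega) (by rw [D.comm]; omega)
          (by rw [hd]; omega) (by omega) (by rw [hd]; omega)
        have hga := nm_mul D g a
        have hgi := nm_mul D g⁻¹ (g * a)
        rw [inv_mul_cancel_left, nm_inv] at hgi
        have hN := hn z a (g * a) (5 * k) (360 * k) (by rw [hd]; omega) (by omega) (by omega)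
          (by omega)
        refine ⟨by omega, ?_⟩
        omega }
  refine ⟨m, C, fun s => wl ua ub (ls s) ++ (wl ua ub (ls s) ++ (wl ua ub (ls s) ++
    (wl ua ub (ls s) ++ wl ua ub (ls s)))),
    5 * (ua.length + m * (ua.length + ub.length)), ?_, ?_, ?_⟩
  · omega
  · intro s
    have g1 : (wl ua ub (ls s)).length = ua.length + m * (ua.length + ub.length) := by
      rw [hls0, wl_append, List.length_append, wl_bl_len, List.length_ofFn]
      simp [wl]
    simp only [List.length_append, g1]
    ring
  · intro s
    simp only [GWP.ev_append, wl_ev, hua, hub]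
    show _ = GWT.prw a b (ls s) ^ 5
    simp only [pow_succ, pow_zero, one_mul, mul_assoc]

end GWQ
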